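import Pool.Agent.TH385.KKGrid.Main

/-!
Density increment for small near-isoperimetric subsets of the grid: full answer to Q1.
-/

set_option autoImplicit false

namespace Pool.Agent.Results.MP_d0893a_co.GridDensityIncrement

open Finset

/-- Edges of the `ℓ¹`-grid on `[k]^n` with exactly one endpoint in `A`, each recorded once as the
ordered pair (endpoint in `A`, endpoint outside `A`). -/
def edgeBoundary {k n : ℕ} (A : Finset (Fin n → Fin k)) :
    Finset ((Fin n → Fin k) × (Fin n → Fin k)) :=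
  Finset.univ.filter (fun p => p.1 ∈ A ∧ p.2 ∉ A ∧
    ∑ i, |((p.1 i : ℕ) : ℤ) - ((p.2 i : ℕ) : ℤ)| = 1)

/-- `m(A) = min_{1 ≤ r ≤ n} |A|^(1-1/r) r k^(n/r-1)`. -/
noncomputable def mA {k n : ℕ} (hn : 1 ≤ n) (A : Finset (Fin n → Fin k)) : ℝ :=
  (Finset.Icc 1 n).inf' ⟨1, Finset.mem_Icc.2 ⟨le_rfl, hn⟩⟩
    (fun r : ℕ => (A.card : ℝ) ^ (1 - 1 / (r : ℝ)) * r * (k : ℝ) ^ ((n : ℝ) / r - 1))

/-- For every `L > 0` there are `L', δ > 0` such that for all `k, n ≥ 1` and all `A ⊆ [k]^n` of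
measure `α ≤ 1/2` with `|∂A| ≤ L m(A)` there is a cartesian product set `C = S_1 × ... × S_n`
of measure at least `α^{L'}` with `|A ∩ C| / |C| ≥ (1 + δ) α`. -/
theorem result : ∀ L : ℝ, 0 < L → ∃ L' δ : ℝ, 0 < L' ∧ 0 < δ ∧
    ∀ (k n : ℕ) (_ : 1 ≤ k) (hn : 1 ≤ n) (A : Finset (Fin n → Fin k)),
      (A.card : ℝ) / (k : ℝ) ^ n ≤ 1 / 2 →
      ((edgeBoundary A).card : ℝ) ≤ L * mA hn A →
      ∃ S : Fin n → Finset (Fin k),
        (∀ i, (S i).Nonempty) ∧
        ((A.card : ℝ) / (k : ℝ) ^ n) ^ L'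
          ≤ ((Fintype.piFinset S).card : ℝ) / (k : ℝ) ^ n ∧
        (1 + δ) * ((A.card : ℝ) / (k : ℝ) ^ n)
          ≤ ((A ∩ Fintype.piFinset S).card : ℝ) / ((Fintype.piFinset S).card : ℝ) := by
  intro L hL
  have hL1 : 0 < Pool.Agent.TH385.KKGrid.L1f L := by
    unfold Pool.Agent.TH385.KKGrid.L1f
    have h1 : 0 < Pool.Agent.TH385.KK.epsL (2 * (1 + 20 * L)) :=
      Pool.Agent.TH385.KK.epsL_pos (by linarith)
    have h2 : 0 ≤ Real.log (2 + 12 * L) := Real.log_nonneg (by linarith)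
    positivity
  refine ⟨Pool.Agent.TH385.KKGrid.L1f L + 5, 1 / 10, by linarith, by norm_num, ?_⟩
  intro k n hk hn A hα hbd
  obtain ⟨K, rfl⟩ : ∃ K, k = K + 1 := ⟨k - 1, by omega⟩
  rcases A.eq_empty_or_nonempty with rfl | hne
  · refine ⟨fun _ => Finset.univ, fun _ => Finset.univ_nonempty, ?_, ?_⟩
    · rw [Finset.card_empty, Nat.cast_zero, zero_div, Real.zero_rpow (by linarith)]
      positivity
    · simp
  · have hcast : ((K + 1 : ℕ) : ℝ) = (K : ℝ) + 1 := by push_cast; ring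
    have hα' : (A.card : ℝ) / ((K : ℝ) + 1) ^ n ≤ 1 / 2 := by rw [← hcast]; exact hα
    have hbd' : ∀ r ∈ Finset.Icc 1 n, ((Pool.Agent.TH385.KKGrid.edgeBoundary A).card : ℝ)
        ≤ L * ((A.card : ℝ) ^ (1 - 1 / (r : ℝ)) * r * ((K : ℝ) + 1) ^ ((n : ℝ) / r - 1)) := by
      intro r hr
      refine hbd.trans ?_
      apply mul_le_mul_of_nonneg_left _ hL.le
      rw [← hcast]
      exact Finset.inf'_le _ hr
    obtain ⟨m, q, hq, hq0, hκ, F, c, h1, h2⟩ :=
      Pool.Agent.TH385.KKGrid.core hL hn hne hα' hbd'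
    obtain ⟨S, hS1, hS2⟩ := Pool.Agent.TH385.KKGrid.conv hn hne hα' hq hq0 hκ h1 h2
    have ha : (0 : ℝ) < A.card := by exact_mod_cast Finset.card_pos.2 hne
    refine ⟨S, ?_, ?_, ?_⟩
    · have h3 : 0 < ((Fintype.piFinset S).card : ℝ) / ((K : ℝ) + 1) ^ n :=
        lt_of_lt_of_le (Real.rpow_pos_of_pos (by positivity) _) hS1
      have h4 : 0 < (Fintype.piFinset S).card := by
        rcases Nat.eq_zero_or_pos (Fintype.piFinset S).card with h0 | h0
        · rw [h0] at h3; simp at h3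
        · exact h0
      obtain ⟨x, hx⟩ := Finset.card_pos.1 h4
      exact fun i => ⟨x i, Fintype.mem_piFinset.1 hx i⟩
    · rw [hcast]; exact hS1
    · rw [hcast]; exact hS2

end Pool.Agent.Results.MP_d0893a_co.GridDensityIncrement
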